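import Pool.Agent.Helper178.IdxCF
import Pool.Agent.Helper178.IdxLow

/-!
There is a context-free language whose rational index has intermediate growth. The language is
the union of a language of nested words and of the set of the words in which the lengths of two
neighbouring blocks do not at least double (or keep) their value. Its rational index lies between
`n ^ (a log n)` and `n ^ (b log n)`.
-/

namespace Pool.Agent.Results.MP_275d83_lc.Intermediate

open Pool.Agent.Helper178.Idx Filter Asymptotics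

/-- The length of a shortest word of `L` accepted by the nondeterministic automaton `M`, with the
value `0` if `M` accepts no word of `L`. -/
noncomputable def shortest {X σ : Type} (L : Language X) (M : NFA X σ) : ℕ :=
  sInf {k | ∃ w ∈ L, w ∈ M.accepts ∧ w.length = k}

/-- The rational index of `L`: the maximum of `shortest L M` over all nondeterministic automata
`M` with `n` states. -/
noncomputable def ratIndex {X : Type} (L : Language X) (n : ℕ) : ℕ :=
  sSup {k | ∃ M : NFA X (Fin n), shortest L M = k}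

/-- Growth faster than every polynomial. -/
def Superpolynomial (f : ℕ → ℕ) : Prop :=
  ∀ k : ℕ, ¬ (fun n => (f n : ℝ)) =O[atTop] fun n => (n : ℝ) ^ k

/-- Growth slower than every exponential `c ^ n` with `c > 1`. -/
def Subexponential (f : ℕ → ℕ) : Prop :=
  ∀ c : ℝ, 1 < c → ∀ᶠ n in atTop, (f n : ℝ) < c ^ n

/-- There are finitely many automata with `n` states, so that the rational index is a maximum. -/
theorem shortest_le_ratIndex {X : Type} [Finite X] (L : Language X) {n : ℕ}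
    (M : NFA X (Fin n)) : shortest L M ≤ ratIndex L n := by
  have hfin : Finite (NFA X (Fin n)) := by
    refine Finite.of_injective (fun M : NFA X (Fin n) => (M.step, M.start, M.accept)) ?_
    rintro ⟨a, b, c⟩ ⟨a', b', c'⟩ h
    simp only [Prod.mk.injEq] at h
    obtain ⟨rfl, rfl, rfl⟩ := h
    rfl
  refine le_csSup ?_ ⟨M, rfl⟩
  have : {k | ∃ M : NFA X (Fin n), shortest L M = k} = Set.range (shortest L) := rfl
  rw [this]
  exact (Set.finite_range _).bddAbove

theorem shortest_le {X σ : Type} {L : Language X} {M : NFA X σ} {B : ℕ}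
    (h : ∀ w ∈ L, w ∈ M.accepts → ∃ w' ∈ L, w' ∈ M.accepts ∧ w'.length ≤ B) :
    shortest L M ≤ B := by
  unfold shortest
  by_cases hne : ∃ w ∈ L, w ∈ M.accepts
  · obtain ⟨w, hw, hM⟩ := hne
    obtain ⟨w', h1, h2, h3⟩ := h w hw hM
    have h4 : w'.length ∈ {k | ∃ w ∈ L, w ∈ M.accepts ∧ w.length = k} := ⟨w', h1, h2, rfl⟩
    exact (Nat.sInf_le h4).trans h3
  · have : {k | ∃ w ∈ L, w ∈ M.accepts ∧ w.length = k} = ∅ := by
      ext k
      constructor
      · rintro ⟨w, hw, hM, _⟩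
        exact (hne ⟨w, hw, hM⟩).elim
      · intro h
        exact absurd h (Set.notMem_empty _)
    rw [this, Nat.sInf_empty]
    exact Nat.zero_le _

theorem ratIndex_le {X : Type} {L : Language X} {n B : ℕ}
    (h : ∀ M : NFA X (Fin n), shortest L M ≤ B) : ratIndex L n ≤ B := by
  have hne : ({k | ∃ M : NFA X (Fin n), shortest L M = k}).Nonempty :=
    ⟨shortest L (NFA.mk (fun _ _ => ∅) ∅ ∅), NFA.mk (fun _ _ => ∅) ∅ ∅, rfl⟩
  refine csSup_le hne ?_
  rintro k ⟨M, rfl⟩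
  exact h M

/-- Renaming of states. -/
def reind {X σ τ : Type} (e : σ ≃ τ) (M : NFA X σ) : NFA X τ where
  step s a := {t | e.symm t ∈ M.step (e.symm s) a}
  start := {s | e.symm s ∈ M.start}
  accept := {s | e.symm s ∈ M.accept}

theorem run_reind {X σ τ : Type} (e : σ ≃ τ) (M : NFA X σ) (w : List X) : ∀ p q : τ,
    Run (fun (p : τ) (a : X) (q : τ) => q ∈ (reind e M).step p a) p w q ↔
      Run (fun (p : σ) (a : X) (q : σ) => q ∈ M.step p a) (e.symm p) w (e.symm q) := by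
  induction w with
  | nil =>
    intro p q
    exact (e.symm.injective.eq_iff).symm
  | cons a w ih =>
    intro p q
    constructor
    · rintro ⟨r, h1, h2⟩
      exact ⟨e.symm r, h1, (ih r q).mp h2⟩
    · rintro ⟨r, h1, h2⟩
      refine ⟨e r, ?_, (ih (e r) q).mpr ?_⟩
      · show e.symm (e r) ∈ M.step (e.symm p) a
        rw [e.symm_apply_apply]
        exact h1
      · rw [e.symm_apply_apply]
        exact h2

theorem accepts_reind {X σ τ : Type} (e : σ ≃ τ) (M : NFA X σ) :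
    (reind e M).accepts = M.accepts := by
  ext w
  constructor
  · rintro ⟨q, hq, h⟩
    obtain ⟨p, hp, h⟩ := (Run_nfa _ w _ q).mp h
    exact ⟨e.symm q, hq, (Run_nfa _ w _ _).mpr ⟨e.symm p, hp, (run_reind e M w p q).mp h⟩⟩
  · rintro ⟨q, hq, h⟩
    obtain ⟨p, hp, h⟩ := (Run_nfa _ w _ q).mp h
    refine ⟨e q, ?_, (Run_nfa _ w _ _).mpr ⟨e p, ?_, (run_reind e M w _ _).mpr ?_⟩⟩
    · show e.symm (e q) ∈ M.accept
      rw [e.symm_apply_apply]; exact hq
    · show e.symm (e p) ∈ M.start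
      rw [e.symm_apply_apply]; exact hp
    · rw [e.symm_apply_apply, e.symm_apply_apply]; exact h

theorem card_Bs (d : ℕ) : Fintype.card (Bs d) = 4 * ((d + 1) * (2 ^ d + 1)) := by
  rw [Fintype.card_prod, Fintype.card_prod, Fintype.card_fin, Fintype.card_fin]
  rfl

/-- The lower bound. -/
theorem index_lower {d : ℕ} (hd : 1 ≤ d) :
    2 ^ (d * (d + 1)) ≤ ratIndex Lang (4 * ((d + 1) * (2 ^ d + 1))) := by
  have e : Bs d ≃ Fin (4 * ((d + 1) * (2 ^ d + 1))) :=
    (Fintype.equivFin (Bs d)).trans (finCongr (card_Bs d))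
  refine le_trans ?_ (shortest_le_ratIndex Lang (reind e (Aut d)))
  unfold shortest
  rw [accepts_reind]
  obtain ⟨w, hw, hM⟩ := aut_exists hd
  refine le_csInf ⟨_, w, hw, hM, rfl⟩ ?_
  rintro k ⟨w', hw', hM', rfl⟩
  exact aut_long hw' hM'

/-- The upper bound. -/
theorem index_upper (n : ℕ) : ratIndex Lang n ≤ UB n := by
  refine ratIndex_le fun M => shortest_le ?_
  intro w hw hM
  have := upper M hw hM
  rwa [Fintype.card_fin] at this

theorem Bd_le (N h : ℕ) (hN : 1 ≤ N) : Bd N h ≤ (5 * N ^ 3) ^ h := by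
  induction h with
  | zero => simp [Bd]
  | succ h ih =>
    have h1 : 1 ≤ (5 * N ^ 3) ^ h := Nat.one_le_pow _ _ (by positivity)
    have h2 : N ≤ N ^ 3 := by
      calc N = N ^ 1 := (pow_one N).symm
        _ ≤ N ^ 3 := Nat.pow_le_pow_right hN (by norm_num)
    calc Bd N (h + 1) = 4 * N ^ 3 + N * Bd N h := by rw [Bd]; ring
      _ ≤ 4 * N ^ 3 * (5 * N ^ 3) ^ h + N ^ 3 * (5 * N ^ 3) ^ h :=
        Nat.add_le_add (Nat.le_mul_of_pos_right _ h1) (Nat.mul_le_mul h2 ih)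
      _ = (5 * N ^ 3) ^ (h + 1) := by ring

theorem UB_le {n l : ℕ} (hn : 1 ≤ n) (hl : Nat.log 2 n = l) :
    UB n ≤ 2 ^ (3 * (l + 2) ^ 2 + 1) := by
  have hlt : n < 2 ^ (l + 1) := by
    rw [← hl]
    exact Nat.lt_pow_succ_log_self (by norm_num) _
  have h1 : 5 * n ^ 3 ≤ 2 ^ (3 * (l + 2)) := by
    have : n ^ 3 ≤ (2 ^ (l + 1)) ^ 3 := Nat.pow_le_pow_left hlt.le 3
    calc 5 * n ^ 3 ≤ 8 * (2 ^ (l + 1)) ^ 3 := Nat.mul_le_mul (by norm_num) this
      _ = 2 ^ (3 * (l + 2)) := by ring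
  have h2 : Bd n (Nat.log 2 n + 2) ≤ 2 ^ (3 * (l + 2) ^ 2) := by
    calc Bd n (Nat.log 2 n + 2) ≤ (5 * n ^ 3) ^ (Nat.log 2 n + 2) := Bd_le n _ hn
      _ ≤ (2 ^ (3 * (l + 2))) ^ (l + 2) := by
        rw [hl]
        exact Nat.pow_le_pow_left h1 _
      _ = 2 ^ (3 * (l + 2) ^ 2) := by
        rw [← pow_mul]
        congr 1
        ring
  have h3 : 7 * n + 1 ≤ 2 ^ (3 * (l + 2) ^ 2) := by
    calc 7 * n + 1 ≤ 8 * 2 ^ (l + 1) := by omega
      _ = 2 ^ (l + 4) := by ring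
      _ ≤ 2 ^ (3 * (l + 2) ^ 2) := Nat.pow_le_pow_right (by norm_num) (by nlinarith)
  unfold UB
  rw [pow_succ]
  omega

theorem pow_big (t : ℕ) (ht : 11 ≤ t) : 12 * t ^ 2 + 1 < 2 ^ t := by
  induction t, ht using Nat.le_induction with
  | base => norm_num
  | succ t ht ih =>
    rw [pow_succ 2 t]
    nlinarith

theorem subexp : Subexponential (ratIndex Lang) := by
  intro c hc
  obtain ⟨m, hm⟩ : ∃ m : ℕ, 2 ≤ c ^ m := by
    obtain ⟨m, hm⟩ := pow_unbounded_of_one_lt 2 hc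
    exact ⟨m, hm.le⟩
  have hm2 : (2 : ℝ) ≤ c ^ (2 ^ m) :=
    hm.trans (pow_le_pow_right₀ hc.le Nat.lt_two_pow_self.le)
  filter_upwards [eventually_ge_atTop (2 ^ (2 * m + 11))] with n hn
  have hn1 : 1 ≤ n := le_trans Nat.one_le_two_pow hn
  have hl : 2 * m + 11 ≤ Nat.log 2 n := (Nat.le_log_iff_pow_le (by norm_num) (by omega)).mpr hn
  obtain ⟨l, hldef⟩ : ∃ l, Nat.log 2 n = l := ⟨_, rfl⟩
  rw [hldef] at hl
  have h1 : ratIndex Lang n ≤ 2 ^ (3 * (l + 2) ^ 2 + 1) := (index_upper n).trans (UB_le hn1 hldef)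
  obtain ⟨t, rfl⟩ : ∃ t, l = m + t := ⟨l - m, by omega⟩
  have h2 : 3 * (m + t + 2) ^ 2 + 1 < 2 ^ t := by
    have h3 := pow_big t (by omega)
    have h4 : m + t + 2 ≤ 2 * t := by omega
    have h5 : (m + t + 2) ^ 2 ≤ (2 * t) ^ 2 := Nat.pow_le_pow_left h4 2
    calc 3 * (m + t + 2) ^ 2 + 1 ≤ 3 * (2 * t) ^ 2 + 1 := by omega
      _ = 12 * t ^ 2 + 1 := by ring
      _ < 2 ^ t := h3
  have h3 : 2 ^ (m + t) ≤ n := by
    rw [← hldef]
    exact Nat.pow_log_le_self 2 (by omega)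
  calc (ratIndex Lang n : ℝ) ≤ ((2 ^ (3 * (m + t + 2) ^ 2 + 1) : ℕ) : ℝ) := by exact_mod_cast h1
    _ = (2 : ℝ) ^ (3 * (m + t + 2) ^ 2 + 1) := by push_cast; rfl
    _ < (2 : ℝ) ^ (2 ^ t) := pow_lt_pow_right₀ (by norm_num) h2
    _ ≤ (c ^ (2 ^ m)) ^ (2 ^ t) := pow_le_pow_left₀ (by norm_num) hm2 _
    _ = c ^ (2 ^ (m + t)) := by rw [← pow_mul, ← pow_add]
    _ ≤ c ^ n := pow_le_pow_right₀ hc.le h3

theorem superpoly : Superpolynomial (ratIndex Lang) := by
  intro k hO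
  rw [isBigO_iff] at hO
  obtain ⟨C, hC⟩ := hO
  obtain ⟨n0, hn0⟩ := eventually_atTop.mp hC
  obtain ⟨C0, hC0⟩ := exists_nat_ge C
  -- a large value of the parameter
  obtain ⟨d, hd⟩ : ∃ d, d = n0 + C0 + 3 * k + 3 := ⟨_, rfl⟩
  have hd1 : 1 ≤ d := by omega
  have hlow := index_lower hd1
  obtain ⟨n, hn⟩ : ∃ n, n = 4 * ((d + 1) * (2 ^ d + 1)) := ⟨_, rfl⟩
  rw [← hn] at hlow
  have hnn0 : n0 ≤ n := by
    rw [hn]
    have : 1 ≤ 2 ^ d + 1 := Nat.le_add_left 1 (2 ^ d)
    nlinarith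
  have hup : n ≤ 2 ^ (2 * d + 3) := by
    rw [hn]
    have h1 : d + 1 ≤ 2 ^ d := Nat.lt_two_pow_self
    have h2 : 2 ^ d + 1 ≤ 2 ^ (d + 1) := by
      rw [pow_succ]
      have : 1 ≤ 2 ^ d := Nat.one_le_two_pow
      omega
    calc 4 * ((d + 1) * (2 ^ d + 1)) ≤ 4 * (2 ^ d * 2 ^ (d + 1)) :=
          Nat.mul_le_mul (le_refl _) (Nat.mul_le_mul h1 h2)
      _ = 2 ^ (2 * d + 3) := by ring
  have hb := hn0 n hnn0
  rw [Real.norm_of_nonneg (by positivity), Real.norm_of_nonneg (by positivity)] at hb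
  have h1 : ((2 ^ (d * (d + 1)) : ℕ) : ℝ) ≤ ((2 ^ C0 * (2 ^ (2 * d + 3)) ^ k : ℕ) : ℝ) := by
    calc ((2 ^ (d * (d + 1)) : ℕ) : ℝ) ≤ (ratIndex Lang n : ℝ) := by exact_mod_cast hlow
      _ ≤ C * (n : ℝ) ^ k := hb
      _ ≤ ((2 ^ C0 : ℕ) : ℝ) * ((2 ^ (2 * d + 3) : ℕ) : ℝ) ^ k := by
        refine mul_le_mul (hC0.trans ?_) ?_ (by positivity) (by positivity)
        · exact_mod_cast Nat.lt_two_pow_self.le
        · exact pow_le_pow_left₀ (by positivity) (by exact_mod_cast hup) k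
      _ = _ := by push_cast; rfl
  have h2 : 2 ^ (d * (d + 1)) ≤ 2 ^ C0 * (2 ^ (2 * d + 3)) ^ k := by exact_mod_cast h1
  rw [← pow_mul, ← pow_add] at h2
  have h3 : d * (d + 1) ≤ C0 + (2 * d + 3) * k := (Nat.pow_le_pow_iff_right (by norm_num)).mp h2
  have h4 : C0 + 3 * k + 3 ≤ d := by omega
  have h5 : 3 ≤ d := by omega
  nlinarith [Nat.mul_le_mul h4 (le_refl d), Nat.mul_le_mul h5 (le_refl k)]

/-- There is a context-free language over a finite alphabet whose rational index grows faster than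
every polynomial and slower than every exponential. -/
theorem result : ∃ (X : Type) (_ : Fintype X) (L : Language X), L.IsContextFree ∧
    Superpolynomial (ratIndex L) ∧ Subexponential (ratIndex L) :=
  ⟨X3, inferInstance, Lang, lang_contextFree, superpoly, subexp⟩

end Pool.Agent.Results.MP_275d83_lc.Intermediate
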